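import Mathlib
import Pool.Agent.Work.MP_71a505_up.Defs

set_option maxHeartbeats 4000000

namespace Pool.Agent.Work.MP_71a505_up

namespace H2B

section real

variable {e h : ℝ}

/-- the quotient of the bracket by `h` (numerator) -/
noncomputable def N1 (e h : ℝ) : ℝ := (-516) + (-1548) * (e) + (-1548) * (e ^ 2) + (-1218) * (e ^ 3) + (-360) * (e ^ 4) + (-360) * (e ^ 5) + (-120) * (e ^ 6) + (-320) * (h) + (-666) * (e * h) + (-282) * (e ^ 2 * h) + (-473) * (e ^ 3 * h) + (114) * (e ^ 4 * h) + (-72) * (e ^ 5 * h) + (-56) * (e ^ 6 * h) + (-52) * (h ^ 2) + (8) * (e * h ^ 2) + (176) * (e ^ 2 * h ^ 2) + (-104) * (e ^ 3 * h ^ 2) + (44) * (e ^ 4 * h ^ 2) + (8) * (e ^ 5 * h ^ 2) + (-8) * (e ^ 6 * h ^ 2) + (26) * (e * h ^ 3) + (52) * (e ^ 2 * h ^ 3) + (8) * (e ^ 4 * h ^ 3) + (4) * (e ^ 5 * h ^ 3)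

theorem mon (he : 0 < e) (hh : 0 < h) (i j : ℕ) : 0 ≤ e ^ i * h ^ j := by positivity

theorem mon1 (he : 0 < e) (he2 : e ≤ 2 / 5) (hh : 0 < h) (hh2 : h ≤ 1 / 10000) (i j : ℕ) :
    e ^ i * h ^ (j + 1) ≤ h := by
  have h1 : e ^ i ≤ 1 := pow_le_one₀ he.le (by linarith)
  have h2 : h ^ j ≤ 1 := pow_le_one₀ hh.le (by linarith)
  calc e ^ i * h ^ (j + 1) = (e ^ i * h ^ j) * h := by ring
    _ ≤ (1 * 1) * h := by
        apply mul_le_mul_of_nonneg_right _ hh.le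
        exact mul_le_mul h1 h2 (by positivity) (by norm_num)
    _ = h := by ring

theorem N1_up (he : 0 < e) (he2 : e ≤ 2 / 5) (hh : 0 < h) (hh2 : h ≤ 1 / 10000) :
    N1 e h ≤ -(37 / 2) * ((h + 3) ^ 3 * (h + 1 - e) * (1 - e - h * e) * (1 + 2 * e)) := by
  have p := mon he hh
  have q := mon1 he he2 hh hh2
  have key : N1 e h + (37 / 2) * ((h + 3) ^ 3 * (h + 1 - e) * (1 - e - h * e) * (1 + 2 * e))
      = (-33/2) + (-1548) * (e) + (-6093/2) * (e ^ 2) + (-219) * (e ^ 3) + (-360) * (e ^ 4) + (-360) * (e ^ 5) + (-120) * (e ^ 6) + (679) * (h) + (-666) * (e * h) + (-3279) * (e ^ 2 * h) + (1525) * (e ^ 3 * h) + (114) * (e ^ 4 * h) + (-72) * (e ^ 5 * h) + (-56) * (e ^ 6 * h) + (614) * (h ^ 2) + (-983/2) * (e * h ^ 2) + (-2821) * (e ^ 2 * h ^ 2) + (1228) * (e ^ 3 * h ^ 2) + (44) * (e ^ 4 * h ^ 2) + (8) * (e ^ 5 * h ^ 2) + (-8) * (e ^ 6 * h ^ 2) + (185) * (h ^ 3) + (-947/2) * (e * h ^ 3) + (-1502) *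 (e ^ 2 * h ^ 3) + (370) * (e ^ 3 * h ^ 3) + (8) * (e ^ 4 * h ^ 3) + (4) * (e ^ 5 * h ^ 3) + (37/2) * (h ^ 4) + (-333/2) * (e * h ^ 4) + (-777/2) * (e ^ 2 * h ^ 4) + (37) * (e ^ 3 * h ^ 4) + (-37/2) * (e * h ^ 5) + (-37) * (e ^ 2 * h ^ 5) := by
    unfold N1
    ring
  have key2 : (-33/2) + (-1548) * (e) + (-6093/2) * (e ^ 2) + (-219) * (e ^ 3) + (-360) * (e ^ 4) + (-360) * (e ^ 5) + (-120) * (e ^ 6) + (679) * (h) + (-666) * (e * h) + (-3279) * (e ^ 2 * h) + (1525) * (e ^ 3 * h) + (114) * (e ^ 4 * h) + (-72) * (e ^ 5 * h) + (-56) * (e ^ 6 * h) + (614) * (h ^ 2) + (-983/2) * (e * h ^ 2) + (-2821) * (e ^ 2 * h ^ 2) + (1228) * (e ^ 3 * h ^ 2) + (44) * (e ^ 4 * h ^ 2) + (8) * (e ^ 5 * h ^ 2) + (-8) * (e ^ 6 * h ^ 2) + (185) * (h ^ 3) + (-947/2) * (e * h ^ 3) + (-1502) * (e ^ 2 * h ^ 3) + (370) * (e ^ 3 * h ^ 3) + (8) * (e ^ 4 * h ^ 3) + (4) * (e ^ 5 * h ^ 3) + (37/2) * (h ^ 4) + (-333/2) * (e * h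 ^ 4) + (-777/2) * (e ^ 2 * h ^ 4) + (37) * (e ^ 3 * h ^ 4) + (-37/2) * (e * h ^ 5) + (-37) * (e ^ 2 * h ^ 5) ≤ 0 := by
    have p1_0 : 0 ≤ e := by positivity
    have p2_0 : 0 ≤ e ^ 2 := by positivity
    have p3_0 : 0 ≤ e ^ 3 := by positivity
    have p4_0 : 0 ≤ e ^ 4 := by positivity
    have p5_0 : 0 ≤ e ^ 5 := by positivity
    have p6_0 : 0 ≤ e ^ 6 := by positivity
    have q0_1 : h ≤ h := by have := q 0 0; norm_num at this; linarith
    have p1_1 : 0 ≤ e * h := by positivity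
    have p2_1 : 0 ≤ e ^ 2 * h := by positivity
    have q3_1 : e ^ 3 * h ≤ h := by have := q 3 0; norm_num at this; linarith
    have q4_1 : e ^ 4 * h ≤ h := by have := q 4 0; norm_num at this; linarith
    have p5_1 : 0 ≤ e ^ 5 * h := by positivity
    have p6_1 : 0 ≤ e ^ 6 * h := by positivity
    have q0_2 : h ^ 2 ≤ h := by have := q 0 1; norm_num at this; linarith
    have p1_2 : 0 ≤ e * h ^ 2 := by positivity
    have p2_2 : 0 ≤ e ^ 2 * h ^ 2 := by positivity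
    have q3_2 : e ^ 3 * h ^ 2 ≤ h := q 3 1
    have q4_2 : e ^ 4 * h ^ 2 ≤ h := q 4 1
    have q5_2 : e ^ 5 * h ^ 2 ≤ h := q 5 1
    have p6_2 : 0 ≤ e ^ 6 * h ^ 2 := by positivity
    have q0_3 : h ^ 3 ≤ h := by have := q 0 2; norm_num at this; linarith
    have p1_3 : 0 ≤ e * h ^ 3 := by positivity
    have p2_3 : 0 ≤ e ^ 2 * h ^ 3 := by positivity
    have q3_3 : e ^ 3 * h ^ 3 ≤ h := q 3 2
    have q4_3 : e ^ 4 * h ^ 3 ≤ h := q 4 2
    have q5_3 : e ^ 5 * h ^ 3 ≤ h := q 5 2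
    have q0_4 : h ^ 4 ≤ h := by have := q 0 3; norm_num at this; linarith
    have p1_4 : 0 ≤ e * h ^ 4 := by positivity
    have p2_4 : 0 ≤ e ^ 2 * h ^ 4 := by positivity
    have q3_4 : e ^ 3 * h ^ 4 ≤ h := q 3 3
    have p1_5 : 0 ≤ e * h ^ 5 := by positivity
    have p2_5 : 0 ≤ e ^ 2 * h ^ 5 := by positivity
    linarith [p1_0, p2_0, p3_0, p4_0, p5_0, p6_0, q0_1, p1_1, p2_1, q3_1, q4_1, p5_1, p6_1, q0_2, p1_2, p2_2, q3_2, q4_2, q5_2, p6_2, q0_3, p1_3, p2_3, q3_3, q4_3, q5_3, q0_4, p1_4, p2_4, q3_4, p1_5, p2_5]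
  linarith

theorem N1_lo (he : 0 < e) (he2 : e ≤ 2 / 5) (hh : 0 < h) (hh2 : h ≤ 1 / 10000) :
    -200 * ((h + 3) ^ 3 * (h + 1 - e) * (1 - e - h * e) * (1 + 2 * e)) ≤ N1 e h := by
  have p := mon he hh
  have q := mon1 he he2 hh hh2
  have e2 : e ^ 2 ≤ 4 / 25 := by nlinarith
  have e4 : e ^ 4 ≤ 1 / 25 := by nlinarith
  have e5 : e ^ 5 ≤ 1 / 25 := by nlinarith [p 4 0]
  have e6 : e ^ 6 ≤ 1 / 25 := by nlinarith [p 5 0]
  have key : N1 e h + 200 * ((h + 3) ^ 3 * (h + 1 - e) * (1 - e - h * e) * (1 + 2 * e))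
      = (4884) + (-1548) * (e) + (-17748) * (e ^ 2) + (9582) * (e ^ 3) + (-360) * (e ^ 4) + (-360) * (e ^ 5) + (-120) * (e ^ 6) + (10480) * (h) + (-666) * (e * h) + (-32682) * (e ^ 2 * h) + (21127) * (e ^ 3 * h) + (114) * (e ^ 4 * h) + (-72) * (e ^ 5 * h) + (-56) * (e ^ 6 * h) + (7148) * (h ^ 2) + (-5392) * (e * h ^ 2) + (-32224) * (e ^ 2 * h ^ 2) + (14296) * (e ^ 3 * h ^ 2) + (44) * (e ^ 4 * h ^ 2) + (8) * (e ^ 5 * h ^ 2) + (-8) * (e ^ 6 * h ^ 2) + (2000) * (h ^ 3) + (-5374) * (e * h ^ 3) + (-16748) * (e ^ 2 * h ^ 3) + (4000) * (e ^ 3 * h ^ 3) + (8) * (e ^ 4 * h ^ 3) + (4) * (e ^ 5 * h ^ 3) + (200) * (h ^ 4) + (-1800) * (e * h ^ 4) + (-4200) * (e ^ 2 * h ^ 4) + (400) * (e ^ 3 * h ^ 4) + (-200) * (e * h ^ 5) + (-400) * (e ^ 2 * h ^ 5) := by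
    unfold N1
    ring
  have key2 : 0 ≤ (4884) + (-1548) * (e) + (-17748) * (e ^ 2) + (9582) * (e ^ 3) + (-360) * (e ^ 4) + (-360) * (e ^ 5) + (-120) * (e ^ 6) + (10480) * (h) + (-666) * (e * h) + (-32682) * (e ^ 2 * h) + (21127) * (e ^ 3 * h) + (114) * (e ^ 4 * h) + (-72) * (e ^ 5 * h) + (-56) * (e ^ 6 * h) + (7148) * (h ^ 2) + (-5392) * (e * h ^ 2) + (-32224) * (e ^ 2 * h ^ 2) + (14296) * (e ^ 3 * h ^ 2) + (44) * (e ^ 4 * h ^ 2) + (8) * (e ^ 5 * h ^ 2) + (-8) * (e ^ 6 * h ^ 2) + (2000) * (h ^ 3) + (-5374) * (e * h ^ 3) + (-16748) * (e ^ 2 * h ^ 3) + (4000) * (e ^ 3 * h ^ 3) + (8) * (e ^ 4 * h ^ 3) + (4) * (e ^ 5 * h ^ 3) + (200) * (h ^ 4) + (-1800) * (e * h ^ 4) + (-4200) * (e ^ 2 * h ^ 4) + (400) * (e ^ 3 * h ^ 4) + (-200) * (e * h ^ 5) + (-400) * (e ^ 2 * h ^ 5) := by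
    have p3_0 : 0 ≤ e ^ 3 := by positivity
    have p0_1 : 0 ≤ h := by positivity
    have q1_1 : e * h ≤ h := by have := q 1 0; norm_num at this; linarith
    have q2_1 : e ^ 2 * h ≤ h := by have := q 2 0; norm_num at this; linarith
    have p3_1 : 0 ≤ e ^ 3 * h := by positivity
    have p4_1 : 0 ≤ e ^ 4 * h := by positivity
    have q5_1 : e ^ 5 * h ≤ h := by have := q 5 0; norm_num at this; linarith
    have q6_1 : e ^ 6 * h ≤ h := by have := q 6 0; norm_num at this; linarith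
    have p0_2 : 0 ≤ h ^ 2 := by positivity
    have q1_2 : e * h ^ 2 ≤ h := by have := q 1 1; norm_num at this; linarith
    have q2_2 : e ^ 2 * h ^ 2 ≤ h := q 2 1
    have p3_2 : 0 ≤ e ^ 3 * h ^ 2 := by positivity
    have p4_2 : 0 ≤ e ^ 4 * h ^ 2 := by positivity
    have p5_2 : 0 ≤ e ^ 5 * h ^ 2 := by positivity
    have q6_2 : e ^ 6 * h ^ 2 ≤ h := q 6 1
    have p0_3 : 0 ≤ h ^ 3 := by positivity
    have q1_3 : e * h ^ 3 ≤ h := by have := q 1 2; norm_num at this; linarith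
    have q2_3 : e ^ 2 * h ^ 3 ≤ h := q 2 2
    have p3_3 : 0 ≤ e ^ 3 * h ^ 3 := by positivity
    have p4_3 : 0 ≤ e ^ 4 * h ^ 3 := by positivity
    have p5_3 : 0 ≤ e ^ 5 * h ^ 3 := by positivity
    have p0_4 : 0 ≤ h ^ 4 := by positivity
    have q1_4 : e * h ^ 4 ≤ h := by have := q 1 3; norm_num at this; linarith
    have q2_4 : e ^ 2 * h ^ 4 ≤ h := q 2 3
    have p3_4 : 0 ≤ e ^ 3 * h ^ 4 := by positivity
    have q1_5 : e * h ^ 5 ≤ h := by have := q 1 4; norm_num at this; linarith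
    have q2_5 : e ^ 2 * h ^ 5 ≤ h := q 2 4
    linarith [p3_0, p0_1, q1_1, q2_1, p3_1, p4_1, q5_1, q6_1, p0_2, q1_2, q2_2, p3_2, p4_2, p5_2, q6_2, p0_3, q1_3, q2_3, p3_3, p4_3, p5_3, p0_4, q1_4, q2_4, p3_4, q1_5, q2_5]
  linarith

theorem kap (hu : 0 < h + 3) (hv : 0 < h + 1 - e) (hw : 0 < 1 - e - h * e) :
    3 / (h + 3) - 1 / (h + 1 - e) + e / (1 - e - h * e)
      = h * qS e h / ((h + 3) * (h + 1 - e) * (1 - e - h * e)) := by
  unfold qS
  have h1 := hu.ne'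
  have h2 := hv.ne'
  have h3 := hw.ne'
  field_simp
  ring

theorem brk (hu : 0 < h + 3) (hv : 0 < h + 1 - e) (hw : 0 < 1 - e - h * e) (hk : 0 < 1 + 2 * e) :
    9 * (qD e h * qS e h / ((h + 3) ^ 3 * (h + 1 - e) * (1 - e - h * e))) * (2 + e)
      - 74 / (h + 3) + 22 / (h + 1 - e) - 26 * e / (1 - e - h * e)
      + (e ^ 3 * (2 + e) / (1 + 2 * e)) * (4 / (h + 1 - e) - 8 / (h + 3))
    = h * (N1 e h / ((h + 3) ^ 3 * (h + 1 - e) * (1 - e - h * e) * (1 + 2 * e))) := by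
  obtain ⟨u, hu'⟩ : ∃ u, u = h + 3 := ⟨_, rfl⟩
  obtain ⟨v, hv'⟩ : ∃ v, v = h + 1 - e := ⟨_, rfl⟩
  obtain ⟨w, hw'⟩ : ∃ w, w = 1 - e - h * e := ⟨_, rfl⟩
  obtain ⟨k, hk'⟩ : ∃ k, k = 1 + 2 * e := ⟨_, rfl⟩
  rw [← hu'] at hu
  rw [← hv'] at hv
  rw [← hw'] at hw
  rw [← hk'] at hk
  rw [← hu', ← hv', ← hw', ← hk']
  have h1 := hu.ne'
  have h2 := hv.ne'
  have h3 := hw.ne'
  have h4 := hk.ne'
  have h5 : (9 * (qD e h * qS e h) * (2 + e) * k - 74 * u ^ 2 * v * w * k + 22 * u ^ 3 * w * k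
      - 26 * e * u ^ 3 * v * k + e ^ 3 * (2 + e) * (4 * u ^ 3 * w - 8 * u ^ 2 * v * w))
      = h * N1 e h := by
    rw [hu', hv', hw', hk']
    unfold qS qD N1
    ring
  rw [← mul_div_assoc h, ← h5]
  field_simp

end real

section data

variable {a b c r s t W e h α β γ δ x d g y z xb yb xc : ℝ}

theorem psq (Q : RQ a b c d g r s t x y z xb yb xc) (r2 : a * b + 1 = r ^ 2) :
    (r * x * xb) ^ 2 = (a * b + 1) * (a * d + 1) * (b * d + 1) := by
  rw [r2, Q.x2, Q.xb2]; ring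

theorem p_bounds (Q : RQ a b c d g r s t x y z xb yb xc) (hr : 0 < r) (hb : 2 ≤ b) (ha : 2 ≤ a)
    (r2 : a * b + 1 = r ^ 2) :
    a * b * d < r * x * xb ∧ r * x * xb ≤ 2 * (a * b * d) := by
  have ha0 : 0 < a := by linarith
  have hb0 : 0 < b := by linarith
  have hd1 := Q.d1
  have hd0 : 0 < d := by linarith [Q.d1]
  have hx := Q.x0
  have hxb := Q.xb0
  have hab : 2 ≤ a * b := by nlinarith
  have had : 2 ≤ a * d := by nlinarith
  have hbd : 2 ≤ b * d := by nlinarith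
  have hp := psq Q r2
  have hpos : 0 < r * x * xb := by positivity
  have hpos2 : 0 < a * b * d := by positivity
  constructor
  · refine lt_of_pow_lt_pow_left₀ 2 hpos.le ?_
    rw [hp]
    have e1 : (a * b + 1) * (a * d + 1) * (b * d + 1)
        = (a * b * d) ^ 2 + (a * b * (a * d) + a * b * (b * d) + a * d * (b * d) + a * b + a * d
            + b * d + 1) := by ring
    rw [e1]
    have : 0 < a * b * (a * d) + a * b * (b * d) + a * d * (b * d) + a * b + a * d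
            + b * d + 1 := by positivity
    linarith
  · refine le_of_sq_le_sq ?_ (by positivity)
    rw [hp]
    have h1 : a * b + 1 ≤ 3 / 2 * (a * b) := by linarith
    have h2 : a * d + 1 ≤ 3 / 2 * (a * d) := by linarith
    have h3 : b * d + 1 ≤ 3 / 2 * (b * d) := by linarith
    calc (a * b + 1) * (a * d + 1) * (b * d + 1)
        ≤ (3 / 2 * (a * b)) * (3 / 2 * (a * d)) * (3 / 2 * (b * d)) := by gcongr
      _ = 27 / 8 * (a * b * d) ^ 2 := by ring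
      _ ≤ (2 * (a * b * d)) ^ 2 := by nlinarith [sq_nonneg (a * b * d)]

theorem gcb (Q : RQ a b c d g r s t x y z xb yb xc) (r2 : a * b + 1 = r ^ 2) :
    g * (c - b) = (b - a) ^ 2 - (2 * d + g) * b + d ^ 2 - 2 * (a * d) - 4 := by
  have hx2 := Q.x2
  have h4 : r * xb = b * x - yb := by
    have h2 := Q.y2
    have h3 := Q.z2
    rw [Q.er, Q.exb, Q.eb, Q.eyb]
    linear_combination (y * z) * hx2 + (-(d * x)) * h2 + (-(a * x)) * h3
  have h5 : r * x * xb = b * x ^ 2 - x * yb := by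
    linear_combination x * h4
  have h6 := Q.eb
  have h7 := Q.eyb
  have h8 := Q.ec
  have hp := psq Q r2
  have hg : g = a + b + d + 2 * a * b * d - 2 * (r * x * xb) := by
    linear_combination 2 * h5 - 2 * x * h7 - (2 * b - 2 * g) * hx2 + h6
  have hc : c = a + b + d + 2 * a * b * d + 2 * (r * x * xb) := by
    linear_combination h8
  have hgc : g * c = (a + b + d + 2 * a * b * d - 2 * (r * x * xb))
      * (a + b + d + 2 * a * b * d + 2 * (r * x * xb)) := by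
    rw [← hg, ← hc]
  linear_combination hgc - 4 * hp

/-- all the facts needed later -/
theorem facts (R : RD a b c r s t W e h α β γ δ)
    (Q : RQ a b c d g r s t x y z xb yb xc) (hadg : 1000 * (d * g) ≤ a) :
    e ≤ 2 / 5 ∧ 3000 ≤ a ∧ 4 * (a * b * d) < c - b ∧ c - a - b - d ≤ 6 * (a * b * d) ∧
    h ≤ 1 / 10000 ∧
    (a * b + 1) * qD e h = h * (h + 3) ^ 2 * (e ^ 3 * W ^ 2) := by
  have ha1 := R.ha
  have hb := R.hb
  have hc := R.hc
  have he := R.he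
  have hh := R.hh
  have hW := R.hW
  have hdg := Q.dg3
  have hd1 := Q.d1
  have hg1 := Q.g1
  have ha : 3000 ≤ a := by linarith
  have hb0 : 0 < b := by linarith
  have hd0 : 0 < d := by linarith
  have hab0 : 0 < a * b := by positivity
  obtain ⟨hp1, hp2⟩ := p_bounds Q R.hr (by linarith) (by linarith) R.r2
  have hec := Q.ec
  have hcb : 4 * (a * b * d) < c - b := by nlinarith
  have hcb0 : 0 < c - b := lt_trans (by positivity) hcb
  have hT : c - a - b - d ≤ 6 * (a * b * d) := by nlinarith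
  -- e
  have he2 : e ≤ 2 / 5 := by
    have h1 : 12 * (W ^ 2 * (e ^ 3 * (2 + e))) < W ^ 2 * (1 + 2 * e) := by
      rw [← R.bca, ← R.acb]
      have h2 : (12 * a) * (c - b) < b * (c - b) := mul_lt_mul_of_pos_right hb hcb0
      have h3 : b * (c - b) < b * (c - a) := mul_lt_mul_of_pos_left (by linarith) hb0
      linarith
    have h2 : 12 * (e ^ 3 * (2 + e)) < 1 + 2 * e := by
      have hW2 : 0 < W ^ 2 := by positivity
      have h3 : W ^ 2 * (12 * (e ^ 3 * (2 + e))) < W ^ 2 * (1 + 2 * e) := by linarith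
      exact lt_of_mul_lt_mul_left h3 hW2.le
    by_contra h3
    push Not at h3
    have h4 : (4 / 25) * e ≤ e ^ 3 := by nlinarith [mul_pos he he]
    have h5 : (8 / 125) * e ≤ e ^ 4 := by nlinarith [mul_pos he he]
    nlinarith
  have hq : (a * b + 1) * qD e h = h * (h + 3) ^ 2 * (e ^ 3 * W ^ 2) := by
    have h1 := R.rα
    have h2 := R.D2
    have h3 := R.A2
    have h4 : r ^ 2 * δ ^ 2 = α ^ 2 * ((h + 3) * e * W) ^ 2 := by
      rw [← mul_pow, ← mul_pow, h1]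
    rw [h2, h3, ← R.r2] at h4
    have h5 : W * ((a * b + 1) * qD e h) = W * (h * (h + 3) ^ 2 * (e ^ 3 * W ^ 2)) := by
      unfold qD
      linear_combination h4
    exact mul_left_cancel₀ hW.ne' h5
  have hQ : 0 < e ^ 3 * W ^ 2 := by positivity
  have hacb : a * (c - b) = (e ^ 3 * W ^ 2) * (2 + e) := by rw [R.acb]; ring
  have hh2 : h ≤ 1 / 10000 := by
    have hqD : qD e h ≤ 2 := by
      unfold qD
      nlinarith [mul_pos hh he]
    have h1 : 9 * (h * (e ^ 3 * W ^ 2)) ≤ h * (h + 3) ^ 2 * (e ^ 3 * W ^ 2) := by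
      have : 9 ≤ (h + 3) ^ 2 := by nlinarith
      have h2 : 0 < h * (e ^ 3 * W ^ 2) := by positivity
      nlinarith
    have h2 : (a * b + 1) * qD e h ≤ 4 * (a * b) := by
      have h3 : (a * b + 1) * qD e h ≤ (a * b + 1) * 2 :=
        mul_le_mul_of_nonneg_left hqD (by positivity)
      have h4 : 1 ≤ a * b := by nlinarith
      linarith
    have h3 : 4 * (a ^ 2 * b) ≤ (e ^ 3 * W ^ 2) * (12 / 5) := by
      have h4 : (e ^ 3 * W ^ 2) * (2 + e) ≤ (e ^ 3 * W ^ 2) * (12 / 5) :=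
        mul_le_mul_of_nonneg_left (by linarith) hQ.le
      have h5 : a * (4 * (a * b * d)) ≤ a * (c - b) :=
        mul_le_mul_of_nonneg_left hcb.le (by linarith)
      have h6 : a * (4 * (a * b * 1)) ≤ a * (4 * (a * b * d)) := by gcongr
      nlinarith
    -- 9 h Q ≤ 4 a b , 4 a^2 b ≤ 2.4 Q
    have h4 : 9 * (h * (5 / 3 * (a ^ 2 * b))) ≤ 4 * (a * b) := by
      have h5 : h * (5 / 3 * (a ^ 2 * b)) ≤ h * (e ^ 3 * W ^ 2) :=
        mul_le_mul_of_nonneg_left (by linarith) hh.le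
      linarith
    have h5 : (a * b) * (15 * (h * a)) ≤ (a * b) * 4 := by nlinarith
    have h6 : 15 * (h * a) ≤ 4 := le_of_mul_le_mul_left h5 hab0
    nlinarith
  exact ⟨he2, ha, hcb, hT, hh2, hq⟩

end data

/-- bounds of the elementary functions of `e, h` -/
theorem eh_bounds {e h : ℝ} (he : 0 < e) (he2 : e ≤ 2 / 5) (hh : 0 < h) (hh2 : h ≤ 1 / 10000) :
    0 < h + 3 ∧ 0 < h + 1 - e ∧ 0 < 1 - e - h * e ∧ 0 < qD e h ∧ qD e h ≤ 2 ∧ 0 < qS e h ∧
    qS e h ≤ 78 / 25 ∧ 19 / 100 * (h + 3) ^ 2 ≤ qD e h * (2 + e) ∧ 3 / 5 ≤ h + 1 - e ∧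
    5999 / 10000 ≤ 1 - e - h * e := by
  have h1 : h * e ≤ 1 / 10000 * (2 / 5) := mul_le_mul hh2 he2 he.le (by norm_num)
  have h2 : 0 < h * e := by positivity
  have h3 : e ^ 2 ≤ 2 / 5 * e := by nlinarith
  refine ⟨by linarith, by linarith, by linarith, ?_, ?_, ?_, ?_, ?_, by linarith, by linarith⟩
  · unfold qD; nlinarith
  · unfold qD; nlinarith
  · unfold qS; nlinarith
  · unfold qS; nlinarith
  · unfold qD
    have h4 : (h + 3) ^ 2 ≤ 9.01 := by nlinarith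
    have h5 : (18 / 25 : ℝ) * (12 / 5) ≤ 2 * (1 - e) ^ 2 * (2 + e) := by
      nlinarith [mul_nonneg he.le (sub_nonneg.2 he2), mul_nonneg he.le (mul_nonneg he.le (sub_nonneg.2 he2)),
        mul_nonneg (sub_nonneg.2 he2) (sub_nonneg.2 he2)]
    have h6 : (h * e) * (2 + e) ≤ 1 / 10000 := by nlinarith
    nlinarith

theorem sizes {a b c d g : ℝ} (ha : 3000 ≤ a) (hb : 12 * a < b) (hd1 : 1 ≤ d) (hg1 : 1 ≤ g)
    (hadg : 1000 * (d * g) ≤ a) (hcb : 4 * (a * b * d) < c - b)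
    (hT2 : c - a - b - d ≤ 6 * (a * b * d))
    (hgcb : g * (c - b) = (b - a) ^ 2 - (2 * d + g) * b + d ^ 2 - 2 * (a * d) - 4) :
    g * (c - b) ≤ b ^ 2 ∧ b ^ 2 ≤ 2 * (g * (c - b)) ∧ 0 ≤ c - a - b - d ∧
    c - a - b - d ≤ a * b * (a + d) ∧ a * b * (a + d) ≤ 2 * (a * (a * b * d)) ∧
    4 * (a * (b - a)) ≤ c - a := by
  have ha0 : 0 < a := by linarith
  have hb0 : 0 < b := by linarith
  have hd0 : 0 < d := by linarith
  have hg0 : 0 < g := by linarith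
  have hdga : 1000 * d ≤ a := by nlinarith
  have hgga : 1000 * g ≤ a := by nlinarith
  have hab0 : 0 < a * b := by positivity
  have m1 : a * a ≤ a * b := by gcongr; linarith
  have m2 : d * d ≤ d * a := by gcongr; linarith
  have m3 : 12 * (a * b) ≤ b * b := by nlinarith
  have m4 : 1000 * (d * b) ≤ a * b := by nlinarith
  have m5 : 1000 * (g * b) ≤ a * b := by nlinarith
  have m6 : 0 ≤ d * b := by positivity
  have m7 : 0 ≤ g * b := by positivity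
  have m8 : a * b ≤ a * b * d := by nlinarith
  have m9 : 3000 * b ≤ a * b := by nlinarith
  refine ⟨?_, ?_, ?_, ?_, ?_, ?_⟩
  · rw [hgcb]; nlinarith
  · rw [hgcb]
    have m10 : 1000 * (a * d) ≤ a * a := by nlinarith
    have m11 : 9000000 ≤ a * a := by nlinarith
    nlinarith
  · nlinarith
  · have : 6 * (a * b * d) ≤ a * b * a := by nlinarith
    nlinarith
  · have m12 : a * b * d * 1 ≤ a * b * d * a := by gcongr; linarith
    have m13 : a * b * a * 1 ≤ a * b * a * d := by gcongr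
    nlinarith
  · nlinarith

theorem cub {h : ℝ} (hh : 0 < h) : (27 : ℝ) ≤ (h + 3) ^ 3 := by
  have := pow_le_pow_left₀ (by norm_num : (0 : ℝ) ≤ 3) (by linarith : (3 : ℝ) ≤ h + 3) 3
  norm_num at this
  linarith

theorem sq9 {h : ℝ} (hh : 0 < h) : (9 : ℝ) ≤ (h + 3) ^ 2 := by nlinarith

theorem ybb {a d g x y z yb : ℝ} (ha : 0 < a) (hd : 1 ≤ d) (hg : 1 ≤ g) (hag : 1 ≤ a * g)
    (hx : 0 < x) (x2 : a * d + 1 = x ^ 2) (y2 : a * g + 1 = y ^ 2) (z2 : d * g + 1 = z ^ 2)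
    (eyb : yb = g * x + y * z) : yb ≤ 3 * g * x := by
  have hd0 : 0 < d := by linarith
  have hg0 : 0 < g := by linarith
  have h1 : y * z ≤ 2 * g * x := by
    refine le_of_sq_le_sq ?_ (by positivity)
    have h2 : (y * z) ^ 2 = (a * g + 1) * (d * g + 1) := by rw [y2, z2]; ring
    have h3 : (2 * g * x) ^ 2 = 4 * g ^ 2 * (a * d + 1) := by rw [x2]; ring
    rw [h2, h3]
    have h7 : 1 ≤ d * g := by nlinarith
    have h4 : 0 ≤ a * g * (d * g - 1) := mul_nonneg (by positivity) (by linarith)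
    have h5 : 0 ≤ d * g * (a * g - 1) := mul_nonneg (by positivity) (by linarith)
    have h6 : 0 ≤ a * d * g ^ 2 := by positivity
    have h8 : 1 ≤ g ^ 2 := by nlinarith
    nlinarith
  rw [eyb]
  linarith

theorem bgge {a b d g C : ℝ} (ha : 0 < a) (hb : 0 < b) (hab : 1 ≤ a * b)
    (h1 : g * C ≤ b ^ 2) (h2 : b ^ 2 ≤ 2 * (g * C)) :
    a * (g * C) ≤ b * (a * b + 1) ∧ b * (a * b + 1) ≤ 4 * (a * (g * C)) := by
  have h4 : a * b ^ 2 ≤ a * (2 * (g * C)) := mul_le_mul_of_nonneg_left h2 ha.le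
  have h5 : b * (a * b + 1) ≤ 2 * (a * b ^ 2) := by nlinarith
  have h6 : a * (g * C) ≤ a * b ^ 2 := mul_le_mul_of_nonneg_left h1 ha.le
  constructor
  · nlinarith
  · linarith

end H2B

variable {a b c r s t W e h α β γ δ x d g y z xb yb xc : ℝ}

/-- BLOCK H2B -/
theorem H2_size (R : RD a b c r s t W e h α β γ δ)
    (Q : RQ a b c d g r s t x y z xb yb xc) (hadg : 1000 * (d * g) ≤ a)
    {L1 L2 L3 T : ℝ} (hL1 : L1 = (h + 3) * e * W)
    (hL2 : L2 = (h + 1 - e) * e * W) (hL3 : L3 = (1 - e - h * e) * W)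
    (hT : T = (c - a - b - d) / 2) :
    (x * (18 * T * (3 / L1 - 1 / L2 + 1 / L3) + (-74 * b - 8 * a + 62 * d + 8 * g) / L1
          + (22 * b + 4 * a - 22 * d) / L2 - 26 * b / L3)
          + 22 * yb * (3 / L1 - 1 / L2 + 1 / L3)) * (e * W) < 0 ∧
    -(1000 * (x * (d + g))) ≤
      (x * (18 * T * (3 / L1 - 1 / L2 + 1 / L3) + (-74 * b - 8 * a + 62 * d + 8 * g) / L1
          + (22 * b + 4 * a - 22 * d) / L2 - 26 * b / L3)
          + 22 * yb * (3 / L1 - 1 / L2 + 1 / L3)) * (e * W) := by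
  obtain ⟨he2, ha, hcb, hT2, hh2, hq⟩ := H2B.facts R Q hadg
  have he := R.he
  have hh := R.hh
  have hW := R.hW
  have hb12 := R.hb
  have hd1 := Q.d1
  have hg1 := Q.g1
  have hx := Q.x0
  have hy := Q.y0
  have hz := Q.z0
  have hb0 : 0 < b := by linarith
  have ha0 : 0 < a := by linarith
  have hd0 : 0 < d := by linarith
  have hg0 : 0 < g := by linarith
  obtain ⟨hu, hv, hw, hqD, hqD2, hqS, hqS2, hqb, hv2, hw2⟩ := H2B.eh_bounds he he2 hh hh2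
  have hk : 0 < 1 + 2 * e := by linarith
  have hkap := H2B.kap hu hv hw
  have hbrk := H2B.brk hu hv hw hk
  have hN1 := H2B.N1_up he he2 hh hh2
  have hN2 := H2B.N1_lo he he2 hh hh2
  have hgcb := H2B.gcb Q R.r2
  have hcb0 : 0 < c - b := lt_trans (by positivity) hcb
  have hca0 : 0 < c - a := by linarith
  have hQ : 0 < e ^ 3 * W ^ 2 := by positivity
  have hacb : a * (c - b) = (e ^ 3 * W ^ 2) * (2 + e) := by rw [R.acb]; ring
  have hW0 := hW.ne'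
  have he0 := he.ne'
  -- the quantity in the new variables
  have i1 : 1 / L1 * (e * W) = 1 / (h + 3) := by
    rw [hL1]; have := hu.ne'; field_simp
  have i2 : 1 / L2 * (e * W) = 1 / (h + 1 - e) := by
    rw [hL2]; have := hv.ne'; field_simp
  have i3 : 1 / L3 * (e * W) = e / (1 - e - h * e) := by
    rw [hL3]
    rw [one_div, ← div_eq_inv_mul, mul_comm e W, mul_comm (1 - e - h * e) W,
      mul_div_mul_left _ _ hW0]
  obtain ⟨κ, hκ⟩ : ∃ κ, κ = 3 / (h + 3) - 1 / (h + 1 - e) + e / (1 - e - h * e) := ⟨_, rfl⟩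
  obtain ⟨Z, hZ⟩ : ∃ Z, Z = 18 * T * κ + (-74 * b - 8 * a + 62 * d + 8 * g) / (h + 3)
      + (22 * b + 4 * a - 22 * d) / (h + 1 - e) - 26 * b * (e / (1 - e - h * e)) := ⟨_, rfl⟩
  have hX : (x * (18 * T * (3 / L1 - 1 / L2 + 1 / L3) + (-74 * b - 8 * a + 62 * d + 8 * g) / L1
          + (22 * b + 4 * a - 22 * d) / L2 - 26 * b / L3)
          + 22 * yb * (3 / L1 - 1 / L2 + 1 / L3)) * (e * W) = x * Z + 22 * yb * κ := by
    have h1 : (x * (18 * T * (3 / L1 - 1 / L2 + 1 / L3) + (-74 * b - 8 * a + 62 * d + 8 * g) / L1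
          + (22 * b + 4 * a - 22 * d) / L2 - 26 * b / L3)
          + 22 * yb * (3 / L1 - 1 / L2 + 1 / L3)) * (e * W)
        = x * (18 * T * (3 * (1 / L1 * (e * W)) - (1 / L2 * (e * W)) + (1 / L3 * (e * W)))
            + (-74 * b - 8 * a + 62 * d + 8 * g) * (1 / L1 * (e * W))
            + (22 * b + 4 * a - 22 * d) * (1 / L2 * (e * W)) - 26 * b * (1 / L3 * (e * W)))
          + 22 * yb * (3 * (1 / L1 * (e * W)) - (1 / L2 * (e * W)) + (1 / L3 * (e * W))) := by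
      ring
    rw [h1, i1, i2, i3, hZ, hκ]
    ring
  rw [hX]
  -- rho
  obtain ⟨ρ, hρ⟩ : ∃ ρ, ρ = (a * b * (a + d) - 2 * T) / (e ^ 3 * W ^ 2) := ⟨_, rfl⟩
  have hρ1 : (e ^ 3 * W ^ 2) * ρ = a * b * (a + d) - 2 * T := by
    rw [hρ, mul_div_cancel₀ _ hQ.ne']
  have hTT : 2 * T = c - a - b - d := by rw [hT]; ring
  obtain ⟨hgle, hgge, hs1, hs2, hs3, hs4⟩ := H2B.sizes ha hb12 hd1 hg1 hadg hcb hT2 hgcb
  have hab0 : 0 < a * b := by positivity
  have hρ0 : 0 ≤ ρ := by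
    have h1 : 0 ≤ a * b * (a + d) - 2 * T := by
      rw [hTT]
      linarith
    rw [hρ]
    exact div_nonneg h1 hQ.le
  have hρ2 : ρ ≤ 2 := by
    rw [hρ, div_le_iff₀ hQ]
    have h1 : a * (4 * (a * b * d)) ≤ (e ^ 3 * W ^ 2) * (12 / 5) := by
      have h4 : (e ^ 3 * W ^ 2) * (2 + e) ≤ (e ^ 3 * W ^ 2) * (12 / 5) :=
        mul_le_mul_of_nonneg_left (by linarith) hQ.le
      have h5 : a * (4 * (a * b * d)) ≤ a * (c - b) :=
        mul_le_mul_of_nonneg_left hcb.le (by linarith)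
      linarith
    have h7 : 0 < a * (a * b * d) := by positivity
    linarith
  have hTh : 2 * T * h * (h + 3) ^ 2 = qD e h * (b * (2 + e) - ρ) := by
    apply mul_left_cancel₀ hQ.ne'
    linear_combination (-(2 * T)) * hq + qD e h * hρ1 + (qD e h * b) * hacb + (a * b * qD e h) * hTT
  -- sigma
  obtain ⟨σ, hσ⟩ : ∃ σ, σ = a * (b - a) / (c - a) := ⟨_, rfl⟩
  have hσ1 : σ * (c - a) = a * (b - a) := by
    rw [hσ, div_mul_cancel₀ _ hca0.ne']
  have hσ0 : 0 ≤ σ := by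
    rw [hσ]
    exact div_nonneg (mul_nonneg ha0.le (by linarith)) hca0.le
  have hσ2 : σ ≤ 1 / 4 := by
    rw [hσ, div_le_iff₀ hca0]
    linarith
  have haσ : a = b * (e ^ 3 * (2 + e) / (1 + 2 * e)) + σ := by
    have h1 : e ^ 3 * (2 + e) * (b * (c - a)) = (1 + 2 * e) * (a * (c - b)) := by
      rw [R.bca, R.acb]; ring
    have h2 : (a - σ) * (1 + 2 * e) = b * (e ^ 3 * (2 + e)) := by
      apply mul_left_cancel₀ hca0.ne'
      linear_combination (-(1 + 2 * e)) * hσ1 - h1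
    have h3 : a - σ = b * (e ^ 3 * (2 + e)) / (1 + 2 * e) := by
      rw [eq_div_iff hk.ne', h2]
    rw [← mul_div_assoc, ← h3]; ring
  -- G9 and n1
  obtain ⟨G9, hG9⟩ : ∃ G9, G9 = 9 * (qD e h * qS e h / ((h + 3) ^ 3 * (h + 1 - e) * (1 - e - h * e))) :=
    ⟨_, rfl⟩
  obtain ⟨n1, hn1⟩ : ∃ n1, n1 = H2B.N1 e h /
      ((h + 3) ^ 3 * (h + 1 - e) * (1 - e - h * e) * (1 + 2 * e)) := ⟨_, rfl⟩
  rw [← hG9, ← hn1] at hbrk
  have hTk : 18 * T * κ = G9 * (b * (2 + e) - ρ) := by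
    rw [hκ, hkap, hG9]
    have h1 : 18 * T * (h * qS e h / ((h + 3) * (h + 1 - e) * (1 - e - h * e)))
        = 9 * ((2 * T * h * (h + 3) ^ 2) * qS e h
          / ((h + 3) ^ 3 * (h + 1 - e) * (1 - e - h * e))) := by
      obtain ⟨v, hv'⟩ : ∃ v, v = h + 1 - e := ⟨_, rfl⟩
      obtain ⟨w, hw'⟩ : ∃ w, w = 1 - e - h * e := ⟨_, rfl⟩
      rw [← hv'] at hv
      rw [← hw'] at hw
      rw [← hv', ← hw']
      have hv3 := hv.ne'
      have hw3 := hw.ne'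
      have hu3 := hu.ne'
      field_simp
      ring
    rw [h1, hTh]
    ring
  have hZ2 : Z = b * h * n1 + σ * (4 / (h + 1 - e) - 8 / (h + 3)) - G9 * ρ
      + d * (62 / (h + 3) - 22 / (h + 1 - e)) + 8 * g / (h + 3) := by
    rw [hZ]
    linear_combination b * hbrk + (4 / (h + 1 - e) - 8 / (h + 3)) * haσ + hTk
  have hDpos : 0 < (h + 3) ^ 3 * (h + 1 - e) * (1 - e - h * e) * (1 + 2 * e) := by positivity
  have hn1a : n1 ≤ -(37 / 2) := by
    rw [hn1, div_le_iff₀ hDpos]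
    exact hN1
  have hn1b : -200 ≤ n1 := by
    rw [hn1, le_div_iff₀ hDpos]
    exact hN2
  have hDD : 27 * (3 / 5) * (5999 / 10000) ≤ (h + 3) ^ 3 * (h + 1 - e) * (1 - e - h * e) := by
    have h1 : (27 : ℝ) ≤ (h + 3) ^ 3 := H2B.cub hh
    exact mul_le_mul (mul_le_mul h1 hv2 (by norm_num) (by positivity)) hw2 (by norm_num)
      (by positivity)
  have hDD0 : 0 < (h + 3) ^ 3 * (h + 1 - e) * (1 - e - h * e) := by positivity
  have hG0 : 0 ≤ G9 := by rw [hG9]; positivity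
  have hG6 : G9 ≤ 6 := by
    have h1 : qD e h * qS e h / ((h + 3) ^ 3 * (h + 1 - e) * (1 - e - h * e)) ≤ 2 / 3 := by
      rw [div_le_iff₀ hDD0]
      have h2 : qD e h * qS e h ≤ 2 * (78 / 25) := by gcongr
      linarith
    rw [hG9]; linarith
  have hκ0 : 0 ≤ κ := by rw [hκ, hkap]; positivity
  have hκ2 : κ ≤ 3 / 10000 := by
    rw [hκ, hkap, div_le_iff₀ (by positivity)]
    have h1 : h * qS e h ≤ 1 / 10000 * (78 / 25) := by gcongr
    have h2 : 3 * (3 / 5) * (5999 / 10000) ≤ (h + 3) * (h + 1 - e) * (1 - e - h * e) := by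
      have h3 : (3 : ℝ) ≤ h + 3 := by linarith
      gcongr
    linarith
  -- 1/u, 1/v
  have iu1 : 1 / (h + 3) ≤ 1 / 3 := by
    apply one_div_le_one_div_of_le (by norm_num); linarith
  have iu2 : 3333 / 10000 ≤ 1 / (h + 3) := by
    rw [le_div_iff₀ hu]; linarith
  have iv1 : 1 / (h + 1 - e) ≤ 5 / 3 := by
    rw [div_le_iff₀ hv]; linarith
  have iv2 : 9999 / 10000 ≤ 1 / (h + 1 - e) := by
    rw [le_div_iff₀ hv]; linarith
  -- beta
  have heq : (a * b + 1) * (qD e h * (2 + e)) = h * (h + 3) ^ 2 * (a * (c - b)) := by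
    rw [hacb]; linear_combination (2 + e) * hq
  have hqb0 : 0 < qD e h * (2 + e) := by positivity
  have hab1 : 1 ≤ a * b := by
    have := mul_le_mul (by linarith : (1 : ℝ) ≤ a) (by linarith : (1 : ℝ) ≤ b) (by norm_num) ha0.le
    linarith
  obtain ⟨hbg1, hbg2⟩ := H2B.bgge (d := d) ha0 hb0 hab1 hgle hgge
  have hβ1 : g * (qD e h * (2 + e)) ≤ b * h * (h + 3) ^ 2 := by
    have h1 : (a * (c - b)) * (g * (qD e h * (2 + e))) ≤ (a * (c - b)) * (b * h * (h + 3) ^ 2) := by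
      have h2 : (a * (c - b)) * (b * h * (h + 3) ^ 2) = b * (a * b + 1) * (qD e h * (2 + e)) := by
        linear_combination (-b) * heq
      rw [h2]
      have h3 : (a * (c - b)) * (g * (qD e h * (2 + e))) = (a * (g * (c - b))) * (qD e h * (2 + e)) := by
        ring
      rw [h3]
      exact mul_le_mul_of_nonneg_right hbg1 hqb0.le
    exact le_of_mul_le_mul_left h1 (mul_pos ha0 hcb0)
  have hβ2 : b * h * (h + 3) ^ 2 ≤ 4 * g * (qD e h * (2 + e)) := by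
    have h1 : (a * (c - b)) * (b * h * (h + 3) ^ 2) ≤ (a * (c - b)) * (4 * g * (qD e h * (2 + e))) := by
      have h2 : (a * (c - b)) * (b * h * (h + 3) ^ 2) = b * (a * b + 1) * (qD e h * (2 + e)) := by
        linear_combination (-b) * heq
      rw [h2]
      have h3 : (a * (c - b)) * (4 * g * (qD e h * (2 + e)))
          = (4 * (a * (g * (c - b)))) * (qD e h * (2 + e)) := by
        ring
      rw [h3]
      exact mul_le_mul_of_nonneg_right hbg2 hqb0.le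
    exact le_of_mul_le_mul_left h1 (mul_pos ha0 hcb0)
  have hβa : 19 / 100 * g ≤ b * h := by
    have hu2 : 0 < (h + 3) ^ 2 := by positivity
    have h1 : (19 / 100 * g) * (h + 3) ^ 2 ≤ b * h * (h + 3) ^ 2 := by
      have h2 : g * (19 / 100 * (h + 3) ^ 2) ≤ g * (qD e h * (2 + e)) :=
        mul_le_mul_of_nonneg_left hqb hg0.le
      linarith
    exact le_of_mul_le_mul_right h1 hu2
  have hβb : b * h ≤ 3 * g := by
    have h2 : (9 : ℝ) ≤ (h + 3) ^ 2 := H2B.sq9 hh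
    have h3 : qD e h * (2 + e) ≤ 2 * (12 / 5) := by
      apply mul_le_mul hqD2 (by linarith) (by linarith) (by norm_num)
    have h4 : b * h * 9 ≤ b * h * (h + 3) ^ 2 :=
      mul_le_mul_of_nonneg_left h2 (by positivity)
    have h5 : 4 * g * (qD e h * (2 + e)) ≤ 4 * g * (2 * (12 / 5)) :=
      mul_le_mul_of_nonneg_left h3 (by positivity)
    linarith
  -- yb
  have hyb0 : 0 < yb := Q.yb0
  have hyb : yb ≤ 3 * g * x := by
    have hag1 : 1 ≤ a * g := by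
      have := mul_le_mul (by linarith : (1 : ℝ) ≤ a) hg1 (by norm_num) ha0.le
      linarith
    exact H2B.ybb ha0 hd1 hg1 hag1 hx Q.x2 Q.y2 Q.z2 Q.eyb
  have hybk : yb * κ ≤ x * (g * (9 / 10000)) := by
    calc yb * κ ≤ (3 * g * x) * (3 / 10000) := mul_le_mul hyb hκ2 hκ0 (by positivity)
      _ = x * (g * (9 / 10000)) := by ring
  have hybk0 : 0 ≤ yb * κ := by positivity
  obtain ⟨iu, hiu⟩ : ∃ iu, iu = 1 / (h + 3) := ⟨_, rfl⟩
  obtain ⟨iv, hiv⟩ : ∃ iv, iv = 1 / (h + 1 - e) := ⟨_, rfl⟩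
  rw [← hiu] at iu1 iu2
  rw [← hiv] at iv1 iv2
  have hZ3 : Z = b * h * n1 + σ * (4 * iv - 8 * iu) - G9 * ρ
      + d * (62 * iu - 22 * iv) + 8 * g * iu := by
    rw [hZ2, hiu, hiv]; ring
  obtain ⟨m, hm⟩ : ∃ m, m = b * h := ⟨_, rfl⟩
  rw [← hm] at hβa hβb hZ3
  have hm0 : 0 ≤ m := by rw [hm]; positivity
  constructor
  · have hZneg : Z + g * (198 / 10000) < 0 := by
      rw [hZ3]
      have t1 : m * n1 ≤ m * (-(37 / 2)) := mul_le_mul_of_nonneg_left hn1a hm0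
      have t2 : σ * (4 * iv - 8 * iu) ≤ 1 / 4 * (4 * iv - 8 * iu) :=
        mul_le_mul_of_nonneg_right hσ2 (by linarith)
      have t3 : 0 ≤ G9 * ρ := by positivity
      have t4 : d * (62 * iu - 22 * iv) ≤ 1 * (62 * iu - 22 * iv) :=
        mul_le_mul_of_nonpos_right hd1 (by linarith)
      have t5 : 8 * g * iu ≤ 8 * g * (1 / 3) := by gcongr
      linarith
    have h1 : x * (Z + g * (198 / 10000)) < 0 := mul_neg_of_pos_of_neg hx hZneg
    linarith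
  · have hZlo : -(1000 * (d + g)) ≤ Z := by
      rw [hZ3]
      have t1 : m * (-200) ≤ m * n1 := mul_le_mul_of_nonneg_left hn1b hm0
      have t2 : 0 ≤ σ * (4 * iv - 8 * iu) := mul_nonneg hσ0 (by linarith)
      have t3 : G9 * ρ ≤ 6 * 2 := by gcongr
      have t4 : d * (-40) ≤ d * (62 * iu - 22 * iv) :=
        mul_le_mul_of_nonneg_left (by linarith) hd0.le
      have t5 : 0 ≤ 8 * g * iu := by
        have : 0 ≤ iu := by linarith
        positivity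
      linarith
    have h1 : x * (-(1000 * (d + g))) ≤ x * Z := mul_le_mul_of_nonneg_left hZlo hx.le
    linarith

end Pool.Agent.Work.MP_71a505_up
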