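import Mathlib
import Pool.Agent.Work.MP_71a505_up.Defs

namespace Pool.Agent.Work.MP_71a505_up

namespace H2F

variable {a b c r s t W e h α β γ δ x d g y z xb yb xc : ℝ}

theorem f1 (Q : RQ a b c d g r s t x y z xb yb xc) : r * xb = b * x - yb := by
  have h1 := Q.x2; have h2 := Q.y2; have h3 := Q.z2
  rw [Q.er, Q.exb, Q.eb, Q.eyb]
  linear_combination (y * z) * h1 + (-(d * x)) * h2 + (-(a * x)) * h3

theorem f2 (Q : RQ a b c d g r s t x y z xb yb xc) : r * z = (a + b - d - g) / 2 := by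
  have h3 := Q.z2
  rw [Q.er, Q.eb]
  linear_combination (-a) * h3

theorem f3 (Q : RQ a b c d g r s t x y z xb yb xc) (r2 : a * b + 1 = r ^ 2) {T : ℝ}
    (hT : T = (c - a - b - d) / 2) : r * xc = T + d := by
  rw [hT, Q.ec, Q.exc]
  linear_combination (-d) * r2

theorem f4 (Q : RQ a b c d g r s t x y z xb yb xc) : s * z = x * (a + b - d) - yb := by
  have h1 := Q.x2; have h3 := Q.z2; have h4 := f2 Q
  have h5 : s * z = x * (r * z) + a * (xb * z) := by rw [Q.es]; ring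
  rw [h5, h4, Q.exb, Q.eyb, Q.eb]
  linear_combination (y * z) * h1 + (-(a * x)) * h3

theorem f5 (Q : RQ a b c d g r s t x y z xb yb xc) (r2 : a * b + 1 = r ^ 2) :
    s * xc = x * (c - 2 * b) + yb := by
  have h1 := Q.x2; have h4 := f1 Q; have h5 := Q.xb2
  rw [Q.ec, Q.exc, Q.es]
  linear_combination (-(d * x)) * r2 + (r * xb) * h1 + (-(a * x)) * h5 - h4

theorem f6 (Q : RQ a b c d g r s t x y z xb yb xc) : t = 2 * b * x - yb := by
  have h4 := f1 Q
  rw [Q.et]
  linear_combination h4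

theorem f7 (Q : RQ a b c d g r s t x y z xb yb xc) {T : ℝ}
    (hT : T = (c - a - b - d) / 2) : t * x = T + b := by
  have h1 := Q.x2
  rw [hT, Q.ec, Q.et]
  linear_combination (-b) * h1

end H2F

variable {a b c r s t W e h α β γ δ x d g y z xb yb xc : ℝ}

/-- BLOCK H2F -/
theorem H2_formula (R : RD a b c r s t W e h α β γ δ)
    (Q : RQ a b c d g r s t x y z xb yb xc) {L1 L2 L3 T : ℝ} (hL1 : L1 = (h + 3) * e * W)
    (hL2 : L2 = (h + 1 - e) * e * W) (hL3 : L3 = (1 - e - h * e) * W)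
    (hT : T = (c - a - b - d) / 2) :
    54 * α * x * xc - 16 * α * x * z - 66 * α * xb - 9 * β * xc + 13 * β * z - 22 * γ
        + 18 * γ * x ^ 2
      = δ * (x * (18 * T * (3 / L1 - 1 / L2 + 1 / L3) + (-74 * b - 8 * a + 62 * d + 8 * g) / L1
          + (22 * b + 4 * a - 22 * d) / L2 - 26 * b / L3)
          + 22 * yb * (3 / L1 - 1 / L2 + 1 / L3)) := by
  have hW := R.hW
  have he := R.he
  have hh := R.hh
  have h1 : 0 < L1 := by
    rw [hL1]; exact mul_pos (mul_pos (by linarith) he) hW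
  have h2 : 0 < L2 := by
    rw [hL2]; exact mul_pos (mul_pos (by linarith [R.hL2]) he) hW
  have h3 : 0 < L3 := by
    rw [hL3]; exact mul_pos (by linarith [R.hL3]) hW
  have hα : α = r * δ / L1 := by
    rw [eq_div_iff h1.ne', R.rα, hL1]
  have hβ : β = s * δ / L2 := by
    rw [eq_div_iff h2.ne', R.sβ, hL2]
  have hγ : γ = t * δ / L3 := by
    rw [eq_div_iff h3.ne', R.tγ, hL3]
  have g1 := H2F.f1 Q
  have g2 := H2F.f2 Q
  have g3 := H2F.f3 Q R.r2 hT
  have g4 := H2F.f4 Q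
  have g5 := H2F.f5 Q R.r2
  have g6 := H2F.f6 Q
  have g7 := H2F.f7 Q hT
  have key : 54 * α * x * xc - 16 * α * x * z - 66 * α * xb - 9 * β * xc + 13 * β * z - 22 * γ
        + 18 * γ * x ^ 2
      = δ * ((54 * x * (r * xc) - 16 * x * (r * z) - 66 * (r * xb)) / L1
        + (-9 * (s * xc) + 13 * (s * z)) / L2 + (-22 * t + 18 * x * (t * x)) / L3) := by
    rw [hα, hβ, hγ]
    ring
  rw [key, g1, g2, g3, g4, g5, g7]
  have hc : c = 2 * T + a + b + d := by rw [hT]; ring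
  rw [g6, hc]
  ring

end Pool.Agent.Work.MP_71a505_up
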